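import Pool.Agent.V11108.HolderMmdim

/-!
# Hölder interval maps never have metric mean dimension one

For `α ∈ (0,1]`, an `α`-Hölder map `φ : [0,1] → [0,1]` has upper metric mean dimension at most
`1 - α`; in particular it is `< 1`.
-/

open Pool.Agent.V11108.HolderMmdim

namespace Pool.Agent.Results.MP_428550_an.HolderMmdimLtOne

/-- **Main result.** For every `α ∈ (0,1]` and every `α`-Hölder continuous `φ : [0,1] → [0,1]` the
upper metric mean dimension of `φ` is at most `1 - α`, and hence it is not `1`. -/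
theorem result (α : ℝ) (hα : 0 < α) (hα1 : α ≤ 1) (φ : I → I) (hφ : IsHolder α φ) :
    upperMmdim φ ≤ ((1 - α : ℝ) : EReal) ∧ upperMmdim φ ≠ 1 := by
  have h := upperMmdim_le hα hα1 hφ
  refine ⟨h, fun h1 => ?_⟩
  rw [h1] at h
  have h2 : ((1 : ℝ) : EReal) ≤ ((1 - α : ℝ) : EReal) := by exact_mod_cast h
  have h3 : (1 : ℝ) ≤ 1 - α := EReal.coe_le_coe_iff.mp h2
  linarith

end Pool.Agent.Results.MP_428550_an.HolderMmdimLtOne
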